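import Pool.Agent.LCC.Domain
import Pool.Agent.LCC.N10

set_option autoImplicit false

namespace Pool.Agent.Results.MP_a802ed_an.CoreDisproof

open Set

/-- There are a strictly pseudoconvex domain `Ω` with smooth boundary in `ℂ²`, a smooth
plurisubharmonic function `φ` on `Ω` which is bounded above, and two points of the same connected
component of the core of `Ω` at which `φ` takes different values. -/
theorem result : ∃ Ω : Set (ℂ × ℂ), LCC.StrictlyPseudoconvex Ω ∧
    ∃ φ : ℂ × ℂ → ℝ, LCC.SmoothPSH Ω φ ∧ BddAbove (φ '' Ω) ∧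
      ∃ z ∈ LCC.core Ω, ∃ w ∈ connectedComponentIn (LCC.core Ω) z, φ z ≠ φ w := by
  obtain ⟨X, Y, c, g, σ, hX, hY, hinj, hpost, hc, hd, hg, hgX, hgY, hσ, hσX, hσg⟩ := LCC.N10_map
  have hdense : Icc (0 : ℝ) 1 ⊆ closure (range c) := by
    intro x hx
    rw [Metric.mem_closure_iff]
    intro δ hδ
    obtain ⟨j, hj⟩ := hd x hx δ hδ
    refine ⟨c j, mem_range_self j, ?_⟩
    rw [dist_comm, Real.dist_eq]
    exact hj
  exact LCC.Data.negated
    { X := X, Y := Y, hX := hX, hY := hY, inj := hinj, post := hpost, c := c, hc := hc,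
      dense := hdense, g := g, hg := hg, gX := hgX, gY := hgY, σ := σ, hσ := hσ,
      σX := fun s hs => (hσX s hs).1, σY := fun s hs => (hσX s hs).2, σg := hσg }

end Pool.Agent.Results.MP_a802ed_an.CoreDisproof
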